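import Mathlib

/-!
# Unbounded solutions of `x (n+1) = (β x n + x (n-1)) / x (n-2)`

For every `0 < β < 1` we construct positive initial values whose solution is unbounded.  Terms of
one parity stay between two constants whose product is `β`, the terms of the other parity grow
geometrically.  The sequence is indexed from `0`, that is, `x 0, x 1, x 2` are the three initial
values.
-/

set_option autoImplicit false

namespace Pool.Agent.Results.MP_1cbbe5_an.Unbounded

/-- `x` is a solution of the recursion with parameter `β` and admissible (nonnegative) initial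
values `x 0, x 1, x 2`: every denominator `x n` is positive and
`x (n+3) = (β x (n+2) + x (n+1)) / x n` for all `n`. -/
def IsSolution (β : ℝ) (x : ℕ → ℝ) : Prop :=
  0 ≤ x 0 ∧ 0 ≤ x 1 ∧ 0 ≤ x 2 ∧ (∀ n, 0 < x n) ∧
    ∀ n, x (n + 3) = (β * x (n + 2) + x (n + 1)) / x n

/-- the triple of three consecutive terms -/
noncomputable def triple (β a b c : ℝ) : ℕ → ℝ × ℝ × ℝ
  | 0 => (a, b, c)
  | n + 1 => ((triple β a b c n).2.1, (triple β a b c n).2.2,
      (β * (triple β a b c n).2.2 + (triple β a b c n).2.1) / (triple β a b c n).1)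

/-- the solution with initial values `a, b, c` -/
noncomputable def sol (β a b c : ℝ) (n : ℕ) : ℝ := (triple β a b c n).1

theorem sol_rec (β a b c : ℝ) (n : ℕ) :
    sol β a b c (n + 3) = (β * sol β a b c (n + 2) + sol β a b c (n + 1)) / sol β a b c n := rfl

theorem sol_pos {β a b c : ℝ} (hβ : 0 < β) (ha : 0 < a) (hb : 0 < b) (hc : 0 < c) :
    ∀ n, 0 < (triple β a b c n).1 ∧ 0 < (triple β a b c n).2.1 ∧ 0 < (triple β a b c n).2.2 := by
  intro n
  induction n with
  | zero => exact ⟨ha, hb, hc⟩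
  | succ n ih =>
    obtain ⟨h1, h2, h3⟩ := ih
    exact ⟨h2, h3, by simp only [triple]; positivity⟩

/-- one step of the induction -/
theorem step {β U L c y y1 z : ℝ} (hβ : 0 < β) (hβ1 : β < 1) (hU : 0 < U) (hU1 : U < 1)
    (hL : 0 < L) (hLU : L * U = β) (hc : c = 4 / (β * (1 - U))) (hz : 0 < z) (hzc : c ^ 2 ≤ z)
    (hcz : c / z < 1)
    (h1 : L * (1 + c / z) ≤ y) (h2 : y ≤ U * (1 - c / z))
    (h3 : L * (1 + c / z) ≤ y1) (h4 : y1 ≤ U * (1 - c / z)) :
    z / U ≤ (β * y1 + z) / y ∧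
    L * (1 + c / z) ≤ (β * ((β * y1 + z) / y) + y1) / z ∧
    (β * ((β * y1 + z) / y) + y1) / z ≤ U * (1 - U * (c / z)) := by
  have hcpos : 0 < c := by
    rw [hc]
    have : 0 < 1 - U := by linarith
    positivity
  set t := c / z with ht
  have ht0 : 0 < t := by positivity
  have hy : 0 < y := lt_of_lt_of_le (by positivity) h1
  have hy1 : 0 < y1 := lt_of_lt_of_le (by positivity) h3
  have hyU : y ≤ U := h2.trans (by nlinarith)
  have hy1U : y1 ≤ 1 := h4.trans (by nlinarith)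
  have hyle1 : y ≤ 1 := by linarith
  have key : (β * ((β * y1 + z) / y) + y1) / z = (β + (β ^ 2 * y1 + y1 * y) / z) / y := by
    field_simp
    ring
  refine ⟨?_, ?_, ?_⟩
  · rw [div_le_div_iff₀ hU hy]
    nlinarith [mul_pos hβ hy1, mul_pos (mul_pos hβ hy1) hU]
  · rw [key, le_div_iff₀ hy]
    have e0 : 0 ≤ (β ^ 2 * y1 + y1 * y) / z := by positivity
    have e1 : L * (1 + t) * y ≤ L * (1 + t) * (U * (1 - t)) :=
      mul_le_mul_of_nonneg_left h2 (by positivity)
    have e2 : L * (1 + t) * (U * (1 - t)) = β * (1 - t ^ 2) := by rw [← hLU]; ring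
    nlinarith [sq_nonneg t, mul_nonneg hβ.le (sq_nonneg t)]
  · rw [key, div_le_iff₀ hy]
    have e0 : (β ^ 2 * y1 + y1 * y) / z ≤ 2 / z := by
      apply div_le_div_of_nonneg_right _ hz.le
      nlinarith [mul_pos hy1 hy, sq_nonneg β]
    have e1 : U * (1 - U * t) * (L * (1 + t)) ≤ U * (1 - U * t) * y := by
      apply mul_le_mul_of_nonneg_left h1
      have : U * t ≤ 1 := by nlinarith
      nlinarith
    have e2 : U * (1 - U * t) * (L * (1 + t)) = β * (1 + (1 - U) * t - U * t ^ 2) := by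
      rw [← hLU]; ring
    have e3 : 2 / z ≤ β * ((1 - U) * t - U * t ^ 2) := by
      have hU' : 0 < 1 - U := by linarith
      have f1 : β * ((1 - U) * t) = 4 / z := by
        rw [ht, hc]
        field_simp
      have f2 : β * (U * t ^ 2) ≤ 1 / z := by
        have g1 : t ^ 2 = c ^ 2 / z / z := by rw [ht]; field_simp
        have g2 : c ^ 2 / z ≤ 1 := by rw [div_le_one hz]; exact hzc
        have g3 : t ^ 2 ≤ 1 / z := by
          rw [g1]
          exact div_le_div_of_nonneg_right g2 hz.le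
        have g4 : 0 ≤ t ^ 2 := sq_nonneg t
        have g5 : β * U ≤ 1 := by nlinarith
        calc β * (U * t ^ 2) = (β * U) * t ^ 2 := by ring
          _ ≤ 1 * t ^ 2 := mul_le_mul_of_nonneg_right g5 g4
          _ ≤ 1 / z := by rw [one_mul]; exact g3
      have f3 : 4 / z - 1 / z ≥ 2 / z := by
        rw [← sub_div, ge_iff_le]
        apply div_le_div_of_nonneg_right _ hz.le
        norm_num
      have f4 : β * ((1 - U) * t - U * t ^ 2) = β * ((1 - U) * t) - β * (U * t ^ 2) := by ring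
      rw [f4, f1]
      linarith
    nlinarith

/-- the invariant propagates along every second index -/
theorem invariant {β U L c Z : ℝ} (hβ : 0 < β) (hβ1 : β < 1) (hU0 : 0 < U) (hU1 : U < 1)
    (hL0 : 0 < L) (hLU : L * U = β) (hc : c = 4 / (β * (1 - U))) (hc0 : 0 < c) (hZ0 : 0 < Z)
    (hZc : c ^ 2 ≤ Z) (hcZ : c / Z < 1) {x : ℕ → ℝ}
    (hrec : ∀ n, x (n + 3) = (β * x (n + 2) + x (n + 1)) / x n) (hZ : Z ≤ x 1)
    (i1 : L * (1 + c / x 1) ≤ x 0) (i2 : x 0 ≤ U * (1 - c / x 1))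
    (i3 : L * (1 + c / x 1) ≤ x 2) (i4 : x 2 ≤ U * (1 - c / x 1)) (k : ℕ) :
    Z * (1 / U) ^ k ≤ x (2 * k + 1) ∧
      L * (1 + c / x (2 * k + 1)) ≤ x (2 * k) ∧ x (2 * k) ≤ U * (1 - c / x (2 * k + 1)) ∧
      L * (1 + c / x (2 * k + 1)) ≤ x (2 * k + 2) ∧
        x (2 * k + 2) ≤ U * (1 - c / x (2 * k + 1)) := by
  induction k with
  | zero => exact ⟨by simpa using hZ, i1, i2, i3, i4⟩
  | succ k ih =>
    obtain ⟨h0, h1, h2, h3, h4⟩ := ih
    have r1 : x (2 * (k + 1) + 1) = (β * x (2 * k + 2) + x (2 * k + 1)) / x (2 * k) := by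
      have e : 2 * (k + 1) + 1 = 2 * k + 3 := by ring
      rw [e]
      exact hrec (2 * k)
    have r2 : x (2 * (k + 1) + 2) =
        (β * x (2 * (k + 1) + 1) + x (2 * k + 2)) / x (2 * k + 1) := by
      have e : 2 * (k + 1) + 2 = 2 * k + 1 + 3 := by ring
      have e' : 2 * (k + 1) + 1 = 2 * k + 1 + 2 := by ring
      rw [e, e']
      exact hrec (2 * k + 1)
    have r3 : x (2 * (k + 1)) = x (2 * k + 2) := by
      have e : 2 * (k + 1) = 2 * k + 2 := by ring
      rw [e]
    rw [r2, r1, r3]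
    generalize x (2 * k + 1) = z at *
    generalize x (2 * k) = y at *
    generalize x (2 * k + 2) = y1 at *
    clear r1 r2 r3 hrec i1 i2 i3 i4
    have hUinv : 1 ≤ 1 / U := by rw [le_div_iff₀ hU0]; linarith
    have hpow : 1 ≤ (1 / U) ^ k := one_le_pow₀ hUinv
    have hzZ : Z ≤ z := by nlinarith
    have hzpos : 0 < z := lt_of_lt_of_le hZ0 hzZ
    have hcz : c / z ≤ c / Z := div_le_div_of_nonneg_left hc0.le hZ0 hzZ
    have hcz1 : c / z < 1 := by linarith
    obtain ⟨s1, s2, s3⟩ := step hβ hβ1 hU0 hU1 hL0 hLU hc hzpos (hZc.trans hzZ) hcz1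
      h1 h2 h3 h4
    generalize (β * y1 + z) / y = z' at *
    have hz'pos : 0 < z' := lt_of_lt_of_le (by positivity) s1
    have hle : c / z' ≤ U * (c / z) := by
      have h : c / z' ≤ c / (z / U) := div_le_div_of_nonneg_left hc0.le (by positivity) s1
      have e : c / (z / U) = U * (c / z) := by field_simp
      rw [e] at h
      exact h
    have hczpos : 0 < c / z := by positivity
    have hle2 : c / z' ≤ c / z := by nlinarith
    refine ⟨?_, ?_, ?_, ?_, ?_⟩
    · calc Z * (1 / U) ^ (k + 1) = (Z * (1 / U) ^ k) / U := by rw [pow_succ]; ring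
        _ ≤ z / U := div_le_div_of_nonneg_right h0 hU0.le
        _ ≤ z' := s1
    · exact le_trans (mul_le_mul_of_nonneg_left (by linarith) hL0.le) h3
    · exact le_trans h4 (mul_le_mul_of_nonneg_left (by linarith) hU0.le)
    · exact le_trans (mul_le_mul_of_nonneg_left (by linarith) hL0.le) s2
    · exact le_trans s3 (mul_le_mul_of_nonneg_left (by linarith) hU0.le)

/-- For every `0 < β < 1` there are positive initial values for which the solution of
`x (n+3) = (β x (n+2) + x (n+1)) / x n` is unbounded. -/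
theorem result : ∀ β : ℝ, 0 < β → β < 1 → ∃ x : ℕ → ℝ, IsSolution β x ∧ ∀ M : ℝ, ∃ n, M < x n := by
  intro β hβ hβ1
  obtain ⟨s, hs0, hss⟩ : ∃ s : ℝ, 0 < s ∧ s * s = β :=
    ⟨Real.sqrt β, Real.sqrt_pos.mpr hβ, Real.mul_self_sqrt hβ.le⟩
  have hs1 : s < 1 := by
    by_contra h
    push Not at h
    nlinarith
  obtain ⟨U, hUdef⟩ : ∃ U : ℝ, U = (1 + s) / 2 := ⟨_, rfl⟩
  have hU0 : 0 < U := by rw [hUdef]; positivity
  have hU1 : U < 1 := by rw [hUdef]; linarith
  obtain ⟨L, hLdef⟩ : ∃ L : ℝ, L = β / U := ⟨_, rfl⟩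
  have hL0 : 0 < L := by rw [hLdef]; positivity
  have hLU : L * U = β := by rw [hLdef]; field_simp
  have hU' : 0 < 1 - U := by linarith
  obtain ⟨c, hcdef⟩ : ∃ c : ℝ, c = 4 / (β * (1 - U)) := ⟨_, rfl⟩
  have hc0 : 0 < c := by rw [hcdef]; positivity
  have hs' : 0 < 1 - s := by linarith
  obtain ⟨Z, hZdef⟩ : ∃ Z : ℝ, Z = c ^ 2 + 2 * c / (1 - s) + 1 := ⟨_, rfl⟩
  have hZ0 : 0 < Z := by rw [hZdef]; positivity
  have hZc : c ^ 2 ≤ Z := by
    have : 0 < 2 * c / (1 - s) := by positivity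
    rw [hZdef]; linarith
  have hcZ : c / Z ≤ (1 - s) / 2 := by
    rw [div_le_div_iff₀ hZ0 (by norm_num)]
    have e1 : (1 - s) * (2 * c / (1 - s)) = 2 * c := by field_simp
    have e2 : 0 ≤ (1 - s) * (c ^ 2 + 1) := by positivity
    have e3 : (1 - s) * Z = (1 - s) * (c ^ 2 + 1) + (1 - s) * (2 * c / (1 - s)) := by
      rw [hZdef]; ring
    rw [e3, e1]
    linarith
  have hcZ0 : 0 < c / Z := by positivity
  have hcZ1 : c / Z < 1 := by linarith
  have f1 : L * (1 + c / Z) ≤ s := by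
    have h : L * (1 + c / Z) * U ≤ s * U := by
      have g1 : L * (1 + c / Z) * U = s * (s * (1 + c / Z)) := by
        calc L * (1 + c / Z) * U = (L * U) * (1 + c / Z) := by ring
          _ = s * (s * (1 + c / Z)) := by rw [hLU, ← hss]; ring
      rw [g1]
      apply mul_le_mul_of_nonneg_left _ hs0.le
      rw [hUdef]
      nlinarith
    exact le_of_mul_le_mul_right h hU0
  have f2 : s ≤ U * (1 - c / Z) := by
    have g2 : U * (c / Z) ≤ 1 * (c / Z) := mul_le_mul_of_nonneg_right hU1.le hcZ0.le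
    have g3 : U * (1 - c / Z) = U - U * (c / Z) := by ring
    have g4 : U - s = (1 - s) / 2 := by rw [hUdef]; ring
    rw [g3]
    linarith
  obtain ⟨x, hpos, hrec, i0, i1, i2⟩ : ∃ x : ℕ → ℝ, (∀ n, 0 < x n) ∧
      (∀ n, x (n + 3) = (β * x (n + 2) + x (n + 1)) / x n) ∧ x 0 = s ∧ x 1 = Z ∧ x 2 = s :=
    ⟨sol β s Z s, fun n => (sol_pos hβ hs0 hZ0 hs0 n).1, fun n => sol_rec β s Z s n,
      rfl, rfl, rfl⟩
  refine ⟨x, ⟨(hpos 0).le, (hpos 1).le, (hpos 2).le, hpos, hrec⟩, ?_⟩
  have hinv := invariant hβ hβ1 hU0 hU1 hL0 hLU hcdef hc0 hZ0 hZc hcZ1 hrec i1.ge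
    (by rw [i0, i1]; exact f1) (by rw [i0, i1]; exact f2) (by rw [i2, i1]; exact f1)
    (by rw [i2, i1]; exact f2)
  intro M
  have hUinv : 1 < 1 / U := by rw [lt_div_iff₀ hU0]; linarith
  obtain ⟨k, hk⟩ := pow_unbounded_of_one_lt (M / Z) hUinv
  refine ⟨2 * k + 1, ?_⟩
  rw [div_lt_iff₀ hZ0] at hk
  have h := (hinv k).1
  linarith

end Pool.Agent.Results.MP_1cbbe5_an.Unbounded
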